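import Pool.Agent.helper77.Bludov.Final

/-!
# Abelian-by-nilpotent ordered groups embed in divisible ordered groups
-/

set_option autoImplicit false

universe u

namespace Pool.Agent.Results.MP_fa2194_al.DivisibleEmbedding

/-- Every ordered group having an abelian normal subgroup with nilpotent quotient admits an
order-embedding into a divisible ordered group. -/
theorem result : ∀ (G : Type u) [Group G] [LinearOrder G],
    (∀ a b c : G, a ≤ b → c * a ≤ c * b ∧ a * c ≤ b * c) →
    ∀ (N : Subgroup G) [N.Normal], (∀ a ∈ N, ∀ b ∈ N, a * b = b * a) →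
    Group.IsNilpotent (G ⧸ N) →
    ∃ (H : Type u) (_ : Group H) (_ : LinearOrder H),
      (∀ a b c : H, a ≤ b → c * a ≤ c * b ∧ a * c ≤ b * c) ∧
      (∀ (h : H) (n : ℕ), 1 ≤ n → ∃ x : H, x ^ n = h) ∧
      ∃ φ : G →* H, Function.Injective φ ∧ ∀ a b : G, a ≤ b ↔ φ a ≤ φ b := by
  intro G _ _ hG N _ hab hnil
  have h1 : MulLeftMono G := ⟨fun c a b h => (hG a b c h).1⟩
  have h2 : MulRightMono G := ⟨fun c a b h => (hG a b c h).2⟩
  obtain ⟨H, _, _, h3, h4, hdiv, φ, hφ⟩ := Bludov.final G N hab hnil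
  refine ⟨H, inferInstance, inferInstance, fun a b c h => ⟨?_, ?_⟩, fun x n hn => ?_, φ,
    hφ.injective, fun a b => hφ.le_iff_le.symm⟩
  · exact mul_le_mul_right h c
  · exact mul_le_mul_left h c
  · exact hdiv n (by omega) x

end Pool.Agent.Results.MP_fa2194_al.DivisibleEmbedding
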